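import Pool.Agent.Helper2.EL.Defs

/-!
EL-1: the Lie algebra `LG Γ` is closed under brackets and under conjugation by `Γ`, it contains the derivative of the
Hodge-Tate cocharacter, and it consists of infinitesimal similitudes of `Q`.
-/

set_option linter.unusedSectionVars false

open Matrix

namespace MH

variable {n : Type*} [Fintype n] [DecidableEq n]
variable {m : ℤ} {Q : Matrix n n ℚ} {S : Finset ℤ} {P R : ℤ → Matrix n n ℂ} {Γ : Subgroup (GL n ℂ)}

theorem LG_br {X Y : Matrix n n ℂ} (hX : X ∈ LG Γ) (hY : Y ∈ LG Γ) : X * Y - Y * X ∈ LG Γ := by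
  intro a b t ht
  rw [dL_bracket, hX a b t ht, hY a b t ht, dact_zero, dact_zero, sub_zero]

private lemma slot_mul56 (a b : ℕ) (g h g' h' : Matrix n n ℂ) :
    (fun k => slot a b g g' k * slot a b h h' k) = slot a b (g * h) (h' * g') := by
  funext k
  rcases k with k | k
  · rfl
  · simp only [slot, Sum.elim_inr, Matrix.transpose_mul]

private lemma slot_one56 (a b : ℕ) : slot a b (1 : Matrix n n ℂ) 1 = fun _ => 1 := by
  funext k
  rcases k with k | k
  · rfl
  · simp [slot]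

/-- A translate of a Tate tensor is a Tate tensor. -/
private lemma tate_conj56 {a b : ℕ} {t : (Fin a ⊕ Fin b → n) → ℂ} {g : GL n ℂ} (hg : g ∈ Γ)
    (ht : IsTateTensor Γ a b t) :
    IsTateTensor Γ a b (actF (slot a b ((g⁻¹ : GL n ℂ) : Matrix n n ℂ) (g : Matrix n n ℂ)) t) := by
  obtain ⟨Γ', h1, h2, h3⟩ := ht
  refine ⟨Γ'.comap (MulAut.conj g).toMonoidHom, ?_, ?_, ?_⟩
  · intro h hh
    rw [Subgroup.mem_comap] at hh
    have h4 : g * h * g⁻¹ ∈ Γ := h1 hh
    have h5 := Γ.mul_mem (Γ.mul_mem (Γ.inv_mem hg) h4) hg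
    have e1 : g⁻¹ * (g * h * g⁻¹) * g = h := by group
    rwa [e1] at h5
  · rw [Subgroup.relIndex_comap]
    have e1 : Γ.map (MulAut.conj g).toMonoidHom = Γ := by
      ext x
      rw [Subgroup.mem_map]
      constructor
      · rintro ⟨y, hy, rfl⟩
        exact Γ.mul_mem (Γ.mul_mem hg hy) (Γ.inv_mem hg)
      · intro hx
        refine ⟨g⁻¹ * x * g, Γ.mul_mem (Γ.mul_mem (Γ.inv_mem hg) hx) hg, ?_⟩
        change g * (g⁻¹ * x * g) * g⁻¹ = x
        group
    rw [e1]
    exact h2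
  · intro h hh
    rw [Subgroup.mem_comap] at hh
    have h4 : g * h * g⁻¹ ∈ Γ' := hh
    have h5 := h3 _ h4
    have e1 : (h : Matrix n n ℂ) * ((g⁻¹ : GL n ℂ) : Matrix n n ℂ) =
        ((g⁻¹ : GL n ℂ) : Matrix n n ℂ) * ((g * h * g⁻¹ : GL n ℂ) : Matrix n n ℂ) := by
      rw [← Units.val_mul, ← Units.val_mul]
      congr 1
      group
    have e2 : (g : Matrix n n ℂ) * ((h⁻¹ : GL n ℂ) : Matrix n n ℂ) =
        (((g * h * g⁻¹)⁻¹ : GL n ℂ) : Matrix n n ℂ) * (g : Matrix n n ℂ) := by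
      rw [← Units.val_mul, ← Units.val_mul]
      congr 1
      group
    rw [actF_mul, slot_mul56, e1, e2, ← slot_mul56, ← actF_mul, h5]

theorem LG_conj {g : GL n ℂ} (hg : g ∈ Γ) {X : Matrix n n ℂ} (hX : X ∈ LG Γ) :
    (g : Matrix n n ℂ) * X * ((g⁻¹ : GL n ℂ) : Matrix n n ℂ) ∈ LG Γ := by
  intro a b t ht
  have h1 : (g : Matrix n n ℂ) * ((g⁻¹ : GL n ℂ) : Matrix n n ℂ) = 1 := by
    rw [← Units.val_mul, mul_inv_cancel, Units.val_one]
  have h2 := hX a b _ (tate_conj56 hg ht)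
  have h3 := dact_conj (slot a b (g : Matrix n n ℂ) ((g⁻¹ : GL n ℂ) : Matrix n n ℂ))
    (slot a b ((g⁻¹ : GL n ℂ) : Matrix n n ℂ) (g : Matrix n n ℂ)) (by
      rintro (k | k)
      · exact h1
      · simp only [slot, Sum.elim_inr]
        rw [← Matrix.transpose_mul, h1, Matrix.transpose_one]) (lslot a b X) t
  rw [dL_apply] at h2 ⊢
  rw [h2, actF_zero] at h3
  rw [← h3]
  congr 1
  funext k
  rcases k with k | k
  · rfl
  · simp only [lslot, slot, Sum.elim_inr, Matrix.transpose_mul, mul_neg, neg_mul, mul_assoc]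

theorem IsGal.h_mem (G : IsGal m Q S P Γ R) : ∑ p ∈ S, (p : ℂ) • R p ∈ LG Γ := by
  intro a b t ht
  have h1 : Idm S R := ⟨G.mul, G.sum⟩
  exact (h1.inv_iff a b t).1 (G.ht a b t ht)

/-! ### tensors with two slots and products -/

/-- product of tensors -/
private def pt56 {a b : ℕ} (u : (Fin a → n) → ℂ) (v : (Fin b → n) → ℂ) : (Fin a ⊕ Fin b → n) → ℂ :=
  fun i => u (fun k => i (Sum.inl k)) * v (fun k => i (Sum.inr k))

private lemma act_pt56 {a b : ℕ} (u : (Fin a → n) → ℂ) (v : (Fin b → n) → ℂ)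
    (A : Fin a ⊕ Fin b → Matrix n n ℂ) (i : Fin a ⊕ Fin b → n) :
    actF A (pt56 u v) i =
      actF (fun k => A (Sum.inl k)) u (fun k => i (Sum.inl k)) *
        actF (fun k => A (Sum.inr k)) v (fun k => i (Sum.inr k)) := by
  unfold actF
  rw [Finset.sum_mul_sum, ← Fintype.sum_prod_type']
  refine Fintype.sum_equiv (Equiv.sumArrowEquivProdArrow (Fin a) (Fin b) n) _ _ fun j => ?_
  rw [Fintype.prod_sum_type]
  simp only [pt56, Equiv.sumArrowEquivProdArrow, Equiv.coe_fn_mk, Function.comp_def]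
  ring

private lemma dact_pt56 {a b : ℕ} (u : (Fin a → n) → ℂ) (v : (Fin b → n) → ℂ)
    (A : Fin a ⊕ Fin b → Matrix n n ℂ) (i : Fin a ⊕ Fin b → n) :
    dact A (pt56 u v) i =
      dact (fun k => A (Sum.inl k)) u (fun k => i (Sum.inl k)) * v (fun k => i (Sum.inr k)) +
        u (fun k => i (Sum.inl k)) * dact (fun k => A (Sum.inr k)) v (fun k => i (Sum.inr k)) := by
  unfold dact
  simp only [Finset.sum_apply, Fintype.sum_sum_type, act_pt56, Finset.sum_mul, Finset.mul_sum]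
  congr 1
  · refine Finset.sum_congr rfl fun k _ => ?_
    congr 1
    · congr 1
      funext l
      by_cases h : l = k
      · subst h
        simp
      · rw [Function.update_of_ne h, Function.update_of_ne (by simpa using h)]
    · have e1 : (fun l => Function.update (fun _ => (1 : Matrix n n ℂ)) (Sum.inl k : Fin a ⊕ Fin b)
          (A (Sum.inl k)) (Sum.inr l)) = fun _ => 1 := by
        funext l
        rw [Function.update_of_ne (by simp)]
      rw [e1, actF_one]
  · refine Finset.sum_congr rfl fun k _ => ?_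
    congr 1
    · have e1 : (fun l => Function.update (fun _ => (1 : Matrix n n ℂ)) (Sum.inr k : Fin a ⊕ Fin b)
          (A (Sum.inr k)) (Sum.inl l)) = fun _ => 1 := by
        funext l
        rw [Function.update_of_ne (by simp)]
      rw [e1, actF_one]
    · congr 1
      funext l
      by_cases h : l = k
      · subst h
        simp
      · rw [Function.update_of_ne h, Function.update_of_ne (by simpa using h)]

/-- the tensor of a matrix -/
private def q2_56 (M : Matrix n n ℂ) : (Fin 2 → n) → ℂ := fun j => M (j 0) (j 1)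

private lemma act_q2_56 (A : Fin 2 → Matrix n n ℂ) (M : Matrix n n ℂ) (i : Fin 2 → n) :
    actF A (q2_56 M) i = (A 0 * M * (A 1)ᵀ) (i 0) (i 1) := by
  unfold actF q2_56
  rw [← Equiv.sum_comp (finTwoArrowEquiv n).symm, Fintype.sum_prod_type]
  simp only [Matrix.mul_apply, Finset.sum_mul, Matrix.transpose_apply, finTwoArrowEquiv_symm_apply,
    Matrix.cons_val_zero, Matrix.cons_val_one, Fin.prod_univ_two]
  rw [Finset.sum_comm]
  refine Finset.sum_congr rfl fun x _ => Finset.sum_congr rfl fun y _ => ?_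
  ring

private lemma dact_q2_56 (A : Fin 2 → Matrix n n ℂ) (M : Matrix n n ℂ) (i : Fin 2 → n) :
    dact A (q2_56 M) i = (A 0 * M + M * (A 1)ᵀ) (i 0) (i 1) := by
  unfold dact
  rw [Fin.sum_univ_two, Pi.add_apply, act_q2_56, act_q2_56, Matrix.add_apply]
  simp

private lemma tate_of56 {a b : ℕ} {t : (Fin a ⊕ Fin b → n) → ℂ}
    (h : ∀ g ∈ Γ, actF (slot a b (g : Matrix n n ℂ) ((g⁻¹ : GL n ℂ) : Matrix n n ℂ)) t = t) :
    IsTateTensor Γ a b t := by
  refine ⟨Γ, le_rfl, ?_, h⟩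
  rw [Subgroup.relIndex_self]
  exact one_ne_zero

theorem IsGal.LG_sim (H : IsHS m Q S P) (G : IsGal m Q S P Γ R) {X : Matrix n n ℂ} (hX : X ∈ LG Γ) :
    ∃ c : ℂ, (m = 0 → c = 0) ∧ Xᵀ * toC Q + toC Q * X = c • toC Q := by
  obtain ⟨_, _, Qi, _, _, hQ1, hQ2, _⟩ := H.exists_basis
  have hgg : ∀ g : GL n ℂ, (g : Matrix n n ℂ) * ((g⁻¹ : GL n ℂ) : Matrix n n ℂ) = 1 := by
    intro g
    rw [← Units.val_mul, mul_inv_cancel, Units.val_one]
  have hginv : ∀ g ∈ Γ, ∃ z : ℂ, (m = 0 → z = 1) ∧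
      toC Q = z ^ 2 • ((((g⁻¹ : GL n ℂ) : Matrix n n ℂ))ᵀ * toC Q * ((g⁻¹ : GL n ℂ) : Matrix n n ℂ)) ∧
      (g : Matrix n n ℂ) * Qi * (g : Matrix n n ℂ)ᵀ = z ^ 2 • Qi := by
    intro g hg
    obtain ⟨z, hz, h1⟩ := G.sim g hg
    set g' := ((g⁻¹ : GL n ℂ) : Matrix n n ℂ) with hg'
    have h2 : (g : Matrix n n ℂ) * g' = 1 := hgg g
    have h3 : g'ᵀ * (g : Matrix n n ℂ)ᵀ = 1 := by rw [← Matrix.transpose_mul, h2, Matrix.transpose_one]
    refine ⟨z, hz, ?_, ?_⟩
    · calc toC Q = (g'ᵀ * (g : Matrix n n ℂ)ᵀ) * toC Q * ((g : Matrix n n ℂ) * g') := by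
            rw [h2, h3, one_mul, mul_one]
        _ = g'ᵀ * ((g : Matrix n n ℂ)ᵀ * toC Q * (g : Matrix n n ℂ)) * g' := by simp only [mul_assoc]
        _ = z ^ 2 • (g'ᵀ * toC Q * g') := by rw [h1, mul_smul_comm, smul_mul_assoc]
    · have h4 : (g : Matrix n n ℂ) = z ^ 2 • (Qi * g'ᵀ * toC Q) := by
        calc (g : Matrix n n ℂ) = (Qi * toC Q) * (g : Matrix n n ℂ) := by rw [hQ2, one_mul]
          _ = Qi * (g'ᵀ * (g : Matrix n n ℂ)ᵀ) * (toC Q * (g : Matrix n n ℂ)) := by
              rw [h3, mul_one, mul_assoc]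
          _ = Qi * g'ᵀ * ((g : Matrix n n ℂ)ᵀ * toC Q * (g : Matrix n n ℂ)) := by simp only [mul_assoc]
          _ = z ^ 2 • (Qi * g'ᵀ * toC Q) := by rw [h1, mul_smul_comm]
      calc (g : Matrix n n ℂ) * Qi * (g : Matrix n n ℂ)ᵀ =
          z ^ 2 • (Qi * g'ᵀ * toC Q * Qi * (g : Matrix n n ℂ)ᵀ) := by
            conv_lhs => rw [mul_assoc]; arg 1; rw [h4]
            rw [smul_mul_assoc]
            simp only [mul_assoc]
        _ = z ^ 2 • (Qi * (g'ᵀ * (g : Matrix n n ℂ)ᵀ)) := by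
            congr 1
            rw [mul_assoc (Qi * g'ᵀ), hQ1, mul_one, mul_assoc]
        _ = z ^ 2 • Qi := by rw [h3, mul_one]
  by_cases hm : m = 0
  · refine ⟨0, fun _ => rfl, ?_⟩
    rw [zero_smul]
    set t : (Fin 0 ⊕ Fin 2 → n) → ℂ := pt56 (fun _ => 1) (q2_56 (toC Q)) with ht
    have hfix : IsTateTensor Γ 0 2 t := by
      apply tate_of56
      intro g hg
      obtain ⟨z, hz, h1, _⟩ := hginv g hg
      rw [hz hm, one_pow, one_smul] at h1
      funext i
      rw [ht, act_pt56, act_q2_56]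
      simp only [slot, Sum.elim_inr, Matrix.transpose_transpose]
      rw [← h1]
      simp [actF, pt56, q2_56]
    have h2 := hX 0 2 t hfix
    rw [dL_apply] at h2
    ext x y
    have h3 := congrFun h2 (Sum.elim Fin.elim0 ![x, y])
    rw [ht, dact_pt56, dact_q2_56] at h3
    simp only [lslot, Sum.elim_inr, Matrix.cons_val_zero, Matrix.cons_val_one, Matrix.transpose_neg,
      Matrix.transpose_transpose, Matrix.zero_apply, Pi.zero_apply] at h3 ⊢
    have h4 : dact (fun k : Fin 0 => Sum.elim (fun _ => X) (fun _ => -Xᵀ) (Sum.inl k : Fin 0 ⊕ Fin 2))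
        (fun _ => (1 : ℂ)) (fun k : Fin 0 => Sum.elim Fin.elim0 ![x, y] (Sum.inl k : Fin 0 ⊕ Fin 2)) = 0 := by
      simp [dact]
    rw [h4, zero_mul, zero_add, one_mul, neg_mul, mul_neg, ← neg_add, Matrix.neg_apply] at h3
    exact neg_eq_zero.mp h3
  · rcases isEmpty_or_nonempty n with hn | hn
    · exact ⟨0, fun _ => rfl, by ext i; exact hn.elim i⟩
    obtain ⟨x0, y0, hxy⟩ : ∃ x y, Qi x y ≠ 0 := by
      by_contra! hcon
      have h0 : Qi = 0 := by
        ext x y
        exact hcon x y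
      rw [h0, mul_zero] at hQ1
      obtain ⟨x⟩ := hn
      have := congrFun (congrFun hQ1 x) x
      simp at this
    set t : (Fin 2 ⊕ Fin 2 → n) → ℂ := pt56 (q2_56 Qi) (q2_56 (toC Q)) with ht
    have hfix : IsTateTensor Γ 2 2 t := by
      apply tate_of56
      intro g hg
      obtain ⟨z, hz, h1, h1'⟩ := hginv g hg
      funext i
      rw [ht, act_pt56, act_q2_56, act_q2_56]
      simp only [slot, Sum.elim_inr, Sum.elim_inl, Matrix.transpose_transpose]
      rw [h1']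
      have h2 := congrFun (congrFun h1 (i (Sum.inr 0))) (i (Sum.inr 1))
      simp only [Matrix.smul_apply, smul_eq_mul] at h2 ⊢
      unfold pt56 q2_56
      rw [h2]
      ring
    have h2 := hX 2 2 t hfix
    rw [dL_apply] at h2
    refine ⟨(X * Qi + Qi * Xᵀ) x0 y0 / Qi x0 y0, fun h => absurd h hm, ?_⟩
    ext x y
    have h3 := congrFun h2 (Sum.elim ![x0, y0] ![x, y])
    rw [ht, dact_pt56, dact_q2_56, dact_q2_56] at h3
    simp only [lslot, Sum.elim_inr, Sum.elim_inl, Matrix.cons_val_zero, Matrix.cons_val_one, Matrix.transpose_neg,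
      Matrix.transpose_transpose, Pi.zero_apply, q2_56] at h3
    rw [neg_mul, mul_neg, ← neg_add, Matrix.neg_apply] at h3
    rw [Matrix.smul_apply, smul_eq_mul, div_mul_eq_mul_div, eq_div_iff hxy]
    linear_combination -h3

end MH
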